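import Pool.Agent.H70.AB.W97.Data

/-!
# Anchors and witnesses W97
-/

namespace Pool.Agent.H70.AB.W97

/-- anchors -/
def anc0 : List (ℕ × ℕ × List ℕ) :=
  List.cons (nat_lit 200, nat_lit 56, List.cons (nat_lit 3170) <| List.cons (nat_lit 560) <| List.nil) <|
  List.cons (nat_lit 401, nat_lit 52, List.cons (nat_lit 4170) <| List.cons (nat_lit 4121) <| List.nil) <|
  List.cons (nat_lit 602, nat_lit 47, List.cons (nat_lit 2562) <| List.cons (nat_lit 1649) <| List.nil) <|
  List.cons (nat_lit 803, nat_lit 43, List.cons (nat_lit 1810) <| List.cons (nat_lit 224) <| List.nil) <|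
  List.cons (nat_lit 1004, nat_lit 38, List.cons (nat_lit 202) <| List.cons (nat_lit 1929) <| List.nil) <|
  List.cons (nat_lit 1205, nat_lit 34, List.cons (nat_lit 1290) <| List.cons (nat_lit 2489) <| List.nil) <|
  List.cons (nat_lit 1406, nat_lit 29, List.cons (nat_lit 2122) <| List.cons (nat_lit 3857) <| List.nil) <|
  List.cons (nat_lit 1607, nat_lit 24, List.cons (nat_lit 514) <| List.cons (nat_lit 754) <| List.nil) <|
  List.cons (nat_lit 1808, nat_lit 20, List.cons (nat_lit 2706) <| List.cons (nat_lit 3697) <| List.nil) <|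
  List.cons (nat_lit 2009, nat_lit 15, List.cons (nat_lit 1098) <| List.cons (nat_lit 3729) <| List.nil) <|
  List.cons (nat_lit 2210, nat_lit 11, List.cons (nat_lit 4370) <| List.cons (nat_lit 2401) <| List.nil) <|
  List.cons (nat_lit 2411, nat_lit 6, List.cons (nat_lit 3642) <| List.cons (nat_lit 1352) <| List.nil) <|
  List.cons (nat_lit 2612, nat_lit 2, List.cons (nat_lit 1946) <| List.cons (nat_lit 33) <| List.nil) <|
  List.cons (nat_lit 2701, nat_lit 0, List.cons (nat_lit 4314) <| List.cons (nat_lit 2040) <| List.cons (nat_lit 4889) <| List.nil) <|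
  []

/-- witnesses -/
def wit : List ℕ :=
  List.cons (nat_lit 1) <| List.cons (nat_lit 2) <| List.cons (nat_lit 3) <| List.cons (nat_lit 4) <| List.cons (nat_lit 18) <| List.cons (nat_lit 24) <| List.cons (nat_lit 27) <| List.cons (nat_lit 37) <| List.cons (nat_lit 47) <| List.cons (nat_lit 53) <| List.cons (nat_lit 54) <| List.cons (nat_lit 58) <| List.cons (nat_lit 59) <| List.cons (nat_lit 64) <| List.cons (nat_lit 91) <| List.cons (nat_lit 110) <| List.nil

theorem num1 : A.numOK = true := by decide +kernel

theorem num2 : A.numOK2 (nat_lit 380) (nat_lit 760) (nat_lit 61) (nat_lit 3648) (nat_lit 110) = true := by decide +kernel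

theorem ancOK : A.ancs (nat_lit 380) (nat_lit 760) (nat_lit 2702) anc0 (nat_lit 0) = true := by decide +kernel

theorem devOK : A.devchk (nat_lit 760) (nat_lit 61) = true := by decide +kernel

theorem leaOK : A.lea (nat_lit 3692) wit = true := by decide +kernel

theorem bndOK : bndW (nat_lit 110) wit = true := by decide +kernel

theorem vOK : A.v1 = true := by decide +kernel

end Pool.Agent.H70.AB.W97
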