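import Pool.Agent.H70.AB.W97.Data

/-!
# Direct checks W97, part 0
-/

namespace Pool.Agent.H70.AB.W97

theorem dir0 : A.chkR (nat_lit 1) (nat_lit 379) = true := by decide +kernel


end Pool.Agent.H70.AB.W97
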