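import Pool.Agent.H70.AB.Sound
import Pool.Agent.H70.AB.Reg
import Pool.Agent.H70.AB.W97.Cert
import Pool.Agent.H70.AB.W97.Dir0

/-!
# Conclusion W97
-/

namespace Pool.Agent.H70.AB.W97

theorem dirAll : ∀ m, 0 < m → m < 380 → A.chk m = true := by
  intro m h1 h2
  exact chkR_sound A 1 379 dir0 m (by omega) (by omega)

theorem final : Str A.word 44 44 2 2658 2652 ∧ Avoids 7 2 A.word ∧
    ∀ u, Avoids 7 2 u → A.word = u ∨ ∃ n, (∀ j, j < n → A.word j = u j) ∧ A.word n < u n :=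
  Dat.final (A := A) num1 num2 dirAll ancOK devOK (fun h => h.v1_sound vOK) leaOK bndOK

end Pool.Agent.H70.AB.W97
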